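import Pool.Agent.KS6_64.CY.Cyc

/-!
# The base case: one odd prime
-/

set_option autoImplicit false

namespace Pool.Agent.KS6_64.CZ

open Filter Topology Polynomial Pool.Agent.KS6_64.CY

variable {l : ℕ}

/-- the three identities -/
theorem ids (hl : l.Prime) (x : ℝ) : P l x * (x - 1) = x ^ l - 1 ∧
    D l x * (x - 1) + P l x = l * x ^ (l - 1) ∧
    D2 l x * (x - 1) + 2 * D l x = l * ((l - 1 : ℕ) * x ^ (l - 1 - 1)) := by
  have : Fact l.Prime := ⟨hl⟩
  have h := cyclotomic_prime_mul_X_sub_one ℝ l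
  have h1 := congrArg (eval x) h
  have h2 := congrArg (fun Q => eval x (derivative Q)) h
  have h3 := congrArg (fun Q => eval x (derivative (derivative Q))) h
  simp only [derivative_mul, eval_mul, eval_add, eval_sub, eval_pow, eval_X, eval_one,
    derivative_sub, derivative_X, derivative_one, derivative_X_pow, derivative_add,
    eval_natCast, mul_one, sub_zero, derivative_C, eval_C, derivative_natCast, zero_mul,
    zero_add, mul_zero, add_zero, map_natCast] at h1 h2 h3
  refine ⟨h1, h2, ?_⟩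
  have : D2 l x * (x - 1) + D l x + D l x = l * ((l - 1 : ℕ) * x ^ (l - 1 - 1)) := by
    simpa [D2, D] using h3
  linarith

theorem f_eq (hl : l.Prime) (x : ℝ) :
    D l x * (x - 1) ^ 2 = (l - 1) * x ^ l - l * x ^ (l - 1) + 1 := by
  obtain ⟨h1, h2, -⟩ := ids hl x
  have e : x * x ^ (l - 1) = x ^ l := mul_pow_sub_one hl.ne_zero x
  linear_combination (x - 1) * h2 - h1 + (l : ℝ) * e

theorem P_sum (hl : l.Prime) (x : ℝ) : P l x = ∑ i ∈ Finset.range l, x ^ i := by
  have : Fact l.Prime := ⟨hl⟩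
  simp [P, cyclotomic_prime, eval_finset_sum]

theorem xD_sum (hl : l.Prime) (x : ℝ) :
    x * D l x = ∑ i ∈ Finset.range l, (i : ℝ) * x ^ i := by
  have : Fact l.Prime := ⟨hl⟩
  unfold D
  rw [cyclotomic_prime, derivative_sum, eval_finset_sum, Finset.mul_sum]
  refine Finset.sum_congr rfl fun i _ => ?_
  rcases Nat.eq_zero_or_pos i with rfl | hi
  · simp
  · rw [derivative_X_pow, eval_mul, eval_pow, eval_X, eval_C]
    have e : x * x ^ (i - 1) = x ^ i := mul_pow_sub_one hi.ne' x
    rw [← e]; ring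

theorem sum_le (x : ℝ) (hx : 1 ≤ x) : ∀ n : ℕ, 2 ≤ n →
    ∑ i ∈ Finset.range n, x ^ i ≤ 2 * ∑ i ∈ Finset.range n, (i : ℝ) * x ^ i := by
  intro n hn
  induction n, hn using Nat.le_induction with
  | base => simp [Finset.sum_range_succ]; linarith
  | succ n hn ih =>
    rw [Finset.sum_range_succ, Finset.sum_range_succ]
    have h1 : (1 : ℝ) ≤ n := by exact_mod_cast (by omega : 1 ≤ n)
    have h2 : 0 < x ^ n := by positivity
    nlinarith

theorem D_pos (hl : l.Prime) {x : ℝ} (hx : 0 < x) : 0 < D l x := by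
  have h1 : 0 < x * D l x := by
    rw [xD_sum hl]
    refine Finset.sum_pos' (fun i _ => by positivity) ⟨1, Finset.mem_range.2 hl.one_lt, by simpa⟩
  exact (pos_iff_pos_of_mul_pos h1).1 hx

theorem D_zero (hl : l.Prime) (h3 : 2 < l) : D l 0 = 1 := by
  have h := f_eq hl 0
  rw [zero_pow hl.ne_zero, zero_pow (show l - 1 ≠ 0 by omega)] at h
  linarith

theorem big_base (hl : l.Prime) (h3 : 2 < l) (x : ℝ) (hx : 1 ≤ |x|) :
    1 / 2 ≤ gg l x ∧ gg l x ≤ l := by
  have hP := P_pos h3 x
  have hl3 : (3 : ℝ) ≤ l := by exact_mod_cast h3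
  unfold gg
  rw [le_div_iff₀ hP, div_le_iff₀ hP]
  rcases le_abs'.1 hx with h | h
  · -- `x ≤ -1`
    have hodd : Odd l := hl.odd_of_ne_two (by omega)
    obtain ⟨h1, h2, -⟩ := ids hl x
    have e : x * x ^ (l - 1) = x ^ l := mul_pow_sub_one hl.ne_zero x
    have hxl : x ^ l ≤ -1 := by
      have := hodd.strictMono_pow.monotone h
      simpa [hodd.neg_one_pow] using this
    -- multiply by `x - 1 < 0`
    have key : (x * D l x) * (x - 1) = l * x ^ l - x * P l x := by
      linear_combination x * h2 + (l : ℝ) * e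
    have hx1 : x - 1 < 0 := by linarith
    constructor
    · have : (x * D l x) * (x - 1) ≤ 1 / 2 * P l x * (x - 1) := by
        rw [key]
        have e1 : 1 / 2 * P l x * (x - 1) = 1 / 2 * (x ^ l - 1) := by rw [← h1]; ring
        rw [e1]
        have e2 : -(x * P l x) ≤ 1 - x ^ l := by
          have : (1 - x) * P l x = 1 - x ^ l := by linear_combination -h1
          nlinarith
        nlinarith
      nlinarith
    · have : l * P l x * (x - 1) ≤ (x * D l x) * (x - 1) := by
        rw [key]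
        have e1 : l * P l x * (x - 1) = l * (x ^ l - 1) := by rw [← h1]; ring
        rw [e1]
        nlinarith
      nlinarith
  · have s1 := sum_le x h l (by omega)
    rw [← P_sum hl, ← xD_sum hl] at s1
    constructor
    · linarith
    · rw [xD_sum hl, P_sum hl, Finset.mul_sum]
      refine Finset.sum_le_sum fun i hi => ?_
      have : (i : ℝ) ≤ l := by exact_mod_cast (Finset.mem_range.1 hi).le
      exact mul_le_mul_of_nonneg_right this (by positivity)

theorem zero_base (hl : l.Prime) (h3 : 2 < l) {x : ℝ} (hx : x ≠ 0) (h0 : gg l x = 0) :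
    D l x = 0 ∧ x < 0 := by
  have h1 : D l x = 0 := by
    unfold gg at h0
    rcases div_eq_zero_iff.1 h0 with h | h
    · exact (mul_eq_zero.1 h).resolve_left hx
    · exact absurd h (P_pos h3 x).ne'
  refine ⟨h1, ?_⟩
  by_contra hcon
  have := D_pos hl (lt_of_le_of_ne (not_lt.1 hcon) (Ne.symm hx))
  linarith

theorem f_mono (hl : l.Prime) (h3 : 2 < l) {x y : ℝ} (hxy : x < y) (hy : y < 0) :
    D l x * (x - 1) ^ 2 < D l y * (y - 1) ^ 2 := by
  have hodd : Odd l := hl.odd_of_ne_two (by omega)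
  have hl3 : (3 : ℝ) ≤ l := by exact_mod_cast h3
  rw [f_eq hl, f_eq hl]
  have h1 : x ^ l < y ^ l := hodd.strictMono_pow hxy
  have h2 : y ^ (l - 1) < x ^ (l - 1) := by
    have he : Even (l - 1) := by
      obtain ⟨k, hk⟩ := hodd
      exact ⟨k, by omega⟩
    rw [← he.pow_abs x, ← he.pow_abs y]
    apply pow_lt_pow_left₀ _ (abs_nonneg _) (by omega)
    rw [abs_of_neg hy, abs_of_neg (hxy.trans hy)]
    linarith
  have h4 : (l - 1 : ℝ) * x ^ l < (l - 1) * y ^ l := mul_lt_mul_of_pos_left h1 (by linarith)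
  have h5 : (l : ℝ) * y ^ (l - 1) < l * x ^ (l - 1) := mul_lt_mul_of_pos_left h2 (by linarith)
  linarith

theorem up_prime (hl : l.Prime) (h3 : 2 < l) : UP (gg l) (gg' l) 1 := by
  have huniq : ∀ x ∈ {x | x ≠ 0 ∧ gg l x = 0}, ∀ y ∈ {x | x ≠ 0 ∧ gg l x = 0}, x = y := by
    intro x hx y hy
    obtain ⟨x1, x2⟩ := zero_base hl h3 hx.1 hx.2
    obtain ⟨y1, y2⟩ := zero_base hl h3 hy.1 hy.2
    rcases lt_trichotomy x y with h | h | h
    · have := f_mono hl h3 h y2
      rw [x1, y1] at this; linarith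
    · exact h
    · have := f_mono hl h3 h x2
      rw [x1, y1] at this; linarith
  have hfin : {x | x ≠ 0 ∧ gg l x = 0}.Finite := Set.Subsingleton.finite huniq
  refine ⟨gg_der h3, gg'_cont h3, gg_zero l, ?_, ⟨1 / 2, l, by norm_num, big_base hl h3⟩, hfin,
    (Set.ncard_le_one hfin).2 huniq, ?_⟩
  · have hP := (P_pos h3 0).ne'
    have hD := D_zero hl h3
    unfold gg'
    rw [hD]
    simp [hP]
  · intro x hx h0
    obtain ⟨x1, x2⟩ := zero_base hl h3 hx h0
    obtain ⟨-, -, h4⟩ := ids hl x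
    have hP := (P_pos h3 x).ne'
    have hD2 : D2 l x ≠ 0 := by
      intro h5
      rw [x1, h5] at h4
      have h6 : (l : ℝ) ≠ 0 := by exact_mod_cast hl.ne_zero
      have h7 : ((l - 1 : ℕ) : ℝ) ≠ 0 := by exact_mod_cast (by omega : l - 1 ≠ 0)
      have h8 := mul_ne_zero h6 (mul_ne_zero h7 (pow_ne_zero (l - 1 - 1) hx))
      apply h8
      linarith
    unfold gg'
    rw [x1]
    simp [hP, hD2, hx]

theorem pos_prime (hl : l.Prime) (h3 : 2 < l) : POS (gg l) 0 := by
  refine ⟨fun _ => 1 / 2, fun i hi => ?_, fun i hi => absurd hi (Nat.not_lt_zero _)⟩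
  obtain rfl : i = 0 := by omega
  refine ⟨by norm_num, by norm_num, ?_⟩
  rw [pow_zero, one_mul]
  unfold gg
  have := D_pos hl (show (0 : ℝ) < 1 / 2 by norm_num)
  exact div_pos (mul_pos (by norm_num) this) (P_pos h3 _)

theorem neg_prime (hl : l.Prime) (h3 : 2 < l) : POS (fun x => gg l (-x)) 1 := by
  have hodd : Odd l := hl.odd_of_ne_two (by omega)
  have he : Even (l - 1) := by
    obtain ⟨k, hk⟩ := hodd
    exact ⟨k, by omega⟩
  have hl3 : (3 : ℝ) ≤ l := by exact_mod_cast h3
  have hlp : (0 : ℝ) < l := by linarith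
  -- the value
  have hf : ∀ y : ℝ, D l (-y) * (y + 1) ^ 2 = 1 - (l - 1) * y ^ l - l * y ^ (l - 1) := by
    intro y
    have h := f_eq hl (-y)
    rw [hodd.neg_pow, he.neg_pow] at h
    linear_combination h
  set s : ℝ := 1 / (2 * l) with hs
  have s0 : 0 < s := by positivity
  have s1 : s * l = 1 / 2 := by rw [hs]; field_simp
  have s2 : s ≤ 1 / 6 := by
    rw [hs]
    exact one_div_le_one_div_of_le (by norm_num) (by linarith)
  have a1 : 0 < gg l (-(1 - s)) := by
    have hy : 0 < 1 - s := by linarith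
    have b1 : 1 / 2 ≤ (1 - s) ^ l := by
      have := one_add_mul_le_pow (show (-2 : ℝ) ≤ -s by linarith) l
      have e : 1 + (l : ℝ) * -s = 1 / 2 := by linarith
      rw [e] at this
      simpa [sub_eq_add_neg] using this
    have b2 : 1 / 2 ≤ (1 - s) ^ (l - 1) :=
      b1.trans (pow_le_pow_of_le_one hy.le (by linarith) (by omega))
    have b3 := hf (1 - s)
    have b4 : D l (-(1 - s)) * (1 - s + 1) ^ 2 < 0 := by
      rw [b3]; nlinarith
    have b5 : D l (-(1 - s)) < 0 := by
      by_contra hcon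
      have := mul_nonneg (not_lt.1 hcon) (sq_nonneg (1 - s + 1))
      linarith
    unfold gg
    exact div_pos (mul_pos_of_neg_of_neg (by linarith) b5) (P_pos h3 _)
  have a2 : gg l (-s) < 0 := by
    have b1 : s ^ l ≤ s := pow_le_of_le_one s0.le (by linarith) hl.ne_zero
    have b2 : s ^ (l - 1) ≤ s := pow_le_of_le_one s0.le (by linarith) (by omega)
    have b3 := hf s
    have b4 : 0 < D l (-s) * (s + 1) ^ 2 := by
      rw [b3]; nlinarith
    have b5 : 0 < D l (-s) := (mul_pos_iff_of_pos_right (by positivity)).1 b4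
    unfold gg
    exact div_neg_of_neg_of_pos (mul_neg_of_neg_of_pos (by linarith) b5) (P_pos h3 _)
  refine ⟨fun i => if i = 0 then 1 - s else s, ?_, ?_⟩
  · intro i hi
    interval_cases i
    · refine ⟨?_, ?_, ?_⟩
      · simp; linarith
      · simp; linarith
      · simpa using a1
    · refine ⟨?_, ?_, ?_⟩
      · simpa using s0
      · simp; linarith
      · simpa using a2
  · intro i hi
    interval_cases i
    simp
    linarith

end Pool.Agent.KS6_64.CZ
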