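import Pool.Agent.KS6_64.CZ.Two

/-!
# The zones for `q r g(x^{qr}) - q g(x^q) - r g(x^r) + g(x)`
-/

set_option autoImplicit false

namespace Pool.Agent.KS6_64.CZ

open Filter Topology Pool.Agent.KS6_64.CY

/-- `q r g(x^{qr})` -/
def B0 (g : ℝ → ℝ) (q r : ℕ) (x : ℝ) : ℝ := q * (r * g (x ^ (q * r)))
/-- its derivative -/
def B1 (g' : ℝ → ℝ) (q r : ℕ) (x : ℝ) : ℝ :=
  q * (r * (g' (x ^ (q * r)) * (((q * r : ℕ) : ℝ) * x ^ (q * r - 1))))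
/-- `q g(x^q) + r g(x^r)` -/
def A0 (g : ℝ → ℝ) (q r : ℕ) (x : ℝ) : ℝ := q * g (x ^ q) + r * g (x ^ r)
/-- its derivative -/
def A1 (g' : ℝ → ℝ) (q r : ℕ) (x : ℝ) : ℝ :=
  q * (g' (x ^ q) * (q * x ^ (q - 1))) + r * (g' (x ^ r) * (r * x ^ (r - 1)))

/-- the constants and their inequalities -/
structure Dat (g g' : ℝ → ℝ) (q r : ℕ) where
  (c C M δ0 δ1 γ δ ε κ a b s : ℝ)
  hc : 0 < c
  hb : ∀ x, 1 ≤ |x| → c ≤ g x ∧ g x ≤ C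
  hM : 0 < M
  hM1 : ∀ x, |x| ≤ 1 → |g' x| ≤ M
  hM2 : ∀ x, |x| ≤ 1 → |g x| ≤ M * |x|
  lp : ∀ x y, |x| ≤ 1 → |y| ≤ 1 → |g y - g x| ≤ M * |y - x|
  d0 : 0 < δ0
  d01 : δ0 < 1
  n1 : ∀ x, |x| ≤ δ0 → |g' x - g' 0| ≤ |g' 0| / 4
  n2 : ∀ x, |x| ≤ δ0 → |g x - g' 0 * x| ≤ |g' 0| / 4 * |x|
  tau : g' 0 ≠ 0
  d1 : 0 < δ1
  k1 : ∀ x, 1 - δ1 ≤ |x| → |x| ≤ 1 → c / 2 ≤ g x
  ka : 1 - δ1 + κ ≤ a
  ka' : 1 - δ1 ≤ a
  hγ : 0 < γ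
  hδ : 0 < δ
  k2 : ∀ z, z ≠ 0 → g z = 0 → δ < |z| ∧ ∀ x, |x - z| < δ → γ ≤ |g' x| ∧ 0 < g' z * g' x
  hε : 0 < ε
  k3 : ∀ x, x ≠ 0 → |x| ≤ 1 → |g x| ≤ ε * |x| → ∃ z, z ≠ 0 ∧ g z = 0 ∧ |x - z| < δ / 2
  κδ : κ ≤ δ / 2
  κε : M * κ ≤ ε * δ0 / 2
  cl : ∀ x, |x| ≤ 1 → δ0 ≤ |x ^ q| → |x ^ r - x ^ q| ≤ κ
  a1 : a < 1
  ab : a ≤ b
  δb : δ0 ≤ b
  b1 : b < 1
  b0 : 0 < b
  hs : s = b ^ (q - 1)
  oq : Odd q
  or : Odd r
  q2 : (2 : ℝ) ≤ q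
  qr : (q : ℝ) ≤ r
  r2 : (r : ℝ) ≤ 2 * q
  e1 : 3 * C < (q : ℝ) * c
  e2 : 24 * M < (q : ℝ) * c
  e3 : 4 * (M + 1) < (q : ℝ) * (ε * δ0)
  e4 : 6 * (M + 1) < (q : ℝ) * (δ0 * γ)
  m1 : 16 * M * ((q : ℝ) ^ 4 * s) < ε
  m2 : 16 * M * ((q : ℝ) ^ 4 * s) < γ
  m3 : 16 * M * ((q : ℝ) ^ 4 * s) < |g' 0|
  m4 : 16 * M * ((q : ℝ) ^ 4 * s) < 1

variable {g g' : ℝ → ℝ} {q r : ℕ}

theorem sgn_iff {τ x : ℝ} {n : ℕ} (on : Odd n) : 0 < τ * x ^ n ↔ 0 < τ * x := by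
  obtain ⟨k, rfl⟩ := on
  rcases eq_or_ne x 0 with rfl | hx
  · simp
  · have h1 : 0 < x ^ (2 * k) := by rw [pow_mul]; positivity
    rw [pow_succ, mul_comm (x ^ (2 * k)), ← mul_assoc]
    exact mul_pos_iff_of_pos_right h1

theorem rolle_quot {F1 F2 F1' F2' : ℝ → ℝ} {x x' : ℝ} (hlt : x < x')
    (d1 : ∀ ξ, HasDerivAt F1 (F1' ξ) ξ) (d2 : ∀ ξ, HasDerivAt F2 (F2' ξ) ξ)
    (pos : ∀ ξ, x ≤ ξ → ξ ≤ x' → 0 < F2 ξ) (e : F1 x = F2 x) (e' : F1 x' = F2 x') :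
    ∃ ξ, x < ξ ∧ ξ < x' ∧ F1' ξ * F2 ξ = F1 ξ * F2' ξ := by
  have hd : ∀ ξ, x ≤ ξ → ξ ≤ x' →
      HasDerivAt (fun w => F1 w / F2 w) ((F1' ξ * F2 ξ - F1 ξ * F2' ξ) / F2 ξ ^ 2) ξ :=
    fun ξ a b => (d1 ξ).div (d2 ξ) (pos ξ a b).ne'
  obtain ⟨ξ, hξ, h0⟩ := exists_hasDerivAt_eq_zero hlt (f := fun w => F1 w / F2 w)
    (f' := fun ξ => (F1' ξ * F2 ξ - F1 ξ * F2' ξ) / F2 ξ ^ 2)
    (fun w hw => (hd w hw.1 hw.2).continuousAt.continuousWithinAt)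
    (by
      show F1 x / F2 x = F1 x' / F2 x'
      rw [e, e', div_self (pos x le_rfl hlt.le).ne', div_self (pos x' hlt.le le_rfl).ne'])
    (fun w hw => hd w hw.1.le hw.2.le)
  refine ⟨ξ, hξ.1, hξ.2, ?_⟩
  have h1 := (pos ξ hξ.1.le hξ.2.le).ne'
  have h2 : F1' ξ * F2 ξ - F1 ξ * F2' ξ = 0 := by
    have h3 : F2 ξ ^ 2 ≠ 0 := pow_ne_zero _ h1
    simpa [h3] using h0
  linarith

theorem between {τ x x' ξ α β : ℝ} {n k : ℕ} (on : Odd n) (ok : Odd k) (h1 : 0 < τ * x ^ n)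
    (h2 : 0 < τ * x' ^ n) (q1 : x ≤ ξ) (q2 : ξ ≤ x') (a1 : |x ^ n| ≤ β) (a2 : |x' ^ n| ≤ β)
    (b1 : α < |x ^ k|) (b2 : α < |x' ^ k|) : 0 < τ * ξ ^ n ∧ |ξ ^ n| ≤ β ∧ α < |ξ ^ k| := by
  have m1 : x ^ n ≤ ξ ^ n := on.strictMono_pow.monotone q1
  have m2 : ξ ^ n ≤ x' ^ n := on.strictMono_pow.monotone q2
  have m3 : x ^ k ≤ ξ ^ k := ok.strictMono_pow.monotone q1
  have m4 : ξ ^ k ≤ x' ^ k := ok.strictMono_pow.monotone q2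
  have q4 : |ξ ^ n| ≤ β :=
    abs_le.2 ⟨by linarith [(abs_le.1 a1).1], by linarith [(abs_le.1 a2).2]⟩
  have h1' := (sgn_iff on).1 h1
  have h2' := (sgn_iff on).1 h2
  rcases lt_trichotomy τ 0 with ht | ht | ht
  · have u2 : x' < 0 := by by_contra hcon; nlinarith [not_lt.1 hcon]
    have v1 : ξ < 0 := by linarith
    have v2 : x < 0 := by linarith
    refine ⟨(sgn_iff on).2 (mul_pos_of_neg_of_neg ht v1), q4, ?_⟩
    rw [abs_of_neg (ok.pow_neg u2)] at b2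
    rw [abs_of_neg (ok.pow_neg v1)]
    linarith
  · rw [ht, zero_mul] at h1; exact absurd h1 (lt_irrefl _)
  · have u1 : 0 < x := by by_contra hcon; nlinarith [not_lt.1 hcon]
    have v1 : 0 < ξ := by linarith
    refine ⟨(sgn_iff on).2 (mul_pos ht v1), q4, ?_⟩
    rw [abs_of_pos (pow_pos u1 k)] at b1
    rw [abs_of_pos (pow_pos v1 k)]
    linarith

theorem between' {z x x' ξ δ δ0 : ℝ} {n : ℕ} (on : Odd n) (hz : δ < |z|) (z0 : z ≠ 0)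
    (a1 : |x ^ n - z| < δ) (a2 : |x' ^ n - z| < δ) (b1 : δ0 < |x ^ n|) (b2 : δ0 < |x' ^ n|)
    (q1 : x < ξ) (q2 : ξ < x') : |ξ ^ n - z| < δ ∧ δ0 < |ξ ^ n| := by
  have m1 : x ^ n < ξ ^ n := on.strictMono_pow q1
  have m2 : ξ ^ n < x' ^ n := on.strictMono_pow q2
  constructor
  · rw [abs_lt] at *; exact ⟨by linarith, by linarith⟩
  · rcases lt_or_gt_of_ne z0 with hn | hp
    · rw [abs_of_neg hn] at hz
      have q : x' ^ n < 0 := by have := (abs_lt.1 a2).2; linarith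
      rw [abs_of_neg q] at b2
      rw [abs_of_neg (by linarith)]; linarith
    · rw [abs_of_pos hp] at hz
      have q : 0 < x ^ n := by have := (abs_lt.1 a1).1; linarith
      rw [abs_of_pos q] at b1
      rw [abs_of_pos (by linarith)]; linarith

namespace Dat

variable (k : Dat g g' q r)

include k

theorem q0 : q ≠ 0 := by
  rintro rfl
  have := k.q2
  norm_num at this

theorem r0 : r ≠ 0 := by
  rintro rfl
  have h1 := k.q2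
  have h2 := k.qr
  rw [Nat.cast_zero] at h2
  linarith

theorem qr' : q ≤ r := by exact_mod_cast k.qr

theorem qqr : q ≤ q * r := Nat.le_mul_of_pos_right q (Nat.pos_of_ne_zero k.r0)

theorem s0 : 0 < k.s := by rw [k.hs]; exact pow_pos k.b0 _

theorem sig : (q : ℝ) * k.s ≤ q ^ 4 * k.s ∧ (r : ℝ) * k.s ≤ 2 * (q ^ 4 * k.s) ∧
    (q : ℝ) * r * k.s ≤ 2 * (q ^ 4 * k.s) ∧ (q : ℝ) ^ 2 * k.s ≤ q ^ 4 * k.s ∧
    (r : ℝ) ^ 2 * k.s ≤ 4 * (q ^ 4 * k.s) ∧ ((q : ℝ) * r) ^ 2 * k.s ≤ 4 * (q ^ 4 * k.s) := by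
  have h1 := k.s0
  have hq := k.q2
  have hr := k.r2
  have hr0 : (0 : ℝ) ≤ r := by have := k.qr; linarith
  have p1 : (q : ℝ) ≤ q ^ 4 := le_self_pow₀ (by linarith) (by norm_num)
  have p2 : (q : ℝ) ^ 2 ≤ q ^ 4 := pow_le_pow_right₀ (by linarith) (by norm_num)
  have p3 : (r : ℝ) ^ 2 ≤ 4 * q ^ 2 := by nlinarith
  have p4 : (q : ℝ) * r ≤ 2 * q ^ 2 := by nlinarith
  have p5 : ((q : ℝ) * r) ^ 2 ≤ 4 * q ^ 4 := by
    rw [mul_pow]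
    nlinarith [sq_nonneg (q : ℝ)]
  refine ⟨?_, ?_, ?_, ?_, ?_, ?_⟩
  · exact mul_le_mul_of_nonneg_right p1 h1.le
  · have := mul_le_mul_of_nonneg_right (show (r : ℝ) ≤ 2 * q ^ 4 by linarith) h1.le
    linarith
  · have := mul_le_mul_of_nonneg_right (show (q : ℝ) * r ≤ 2 * q ^ 4 by linarith) h1.le
    linarith
  · exact mul_le_mul_of_nonneg_right p2 h1.le
  · have := mul_le_mul_of_nonneg_right (show (r : ℝ) ^ 2 ≤ 4 * q ^ 4 by linarith) h1.le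
    linarith
  · have := mul_le_mul_of_nonneg_right p5 h1.le
    linarith

theorem pw {n : ℕ} (hn : q ≤ n) {u : ℝ} (hu : |u| ≤ k.b) : |u| ^ (n - 1) ≤ k.s := by
  rw [k.hs]
  calc |u| ^ (n - 1) ≤ k.b ^ (n - 1) := pow_le_pow_left₀ (abs_nonneg _) hu _
    _ ≤ k.b ^ (q - 1) := pow_le_pow_of_le_one k.b0.le k.b1.le (by omega)

theorem pw2 {n : ℕ} (hn : q ≤ n) {u : ℝ} (hu : |u| ≤ k.b) : |u ^ n| ≤ k.s * |u| := by
  have hn0 : n ≠ 0 := by have := k.q0; omega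
  rw [abs_pow, ← pow_sub_one_mul hn0 |u|]
  exact mul_le_mul_of_nonneg_right (k.pw hn hu) (abs_nonneg _)

omit k in
theorem pw1 {n : ℕ} {u : ℝ} (hu : |u| ≤ 1) : |u ^ n| ≤ 1 := by
  rw [abs_pow]; exact pow_le_one₀ (abs_nonneg _) hu

theorem tg {u : ℝ} (hu : |u| ≤ 1) : |u * g' u| ≤ M k * |u| := by
  rw [abs_mul, mul_comm]
  exact mul_le_mul_of_nonneg_right (k.hM1 u hu) (abs_nonneg _)

theorem tg1 {u : ℝ} (hu : |u| ≤ 1) : |u * g' u| ≤ M k :=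
  (k.tg hu).trans (by have := k.hM; nlinarith [abs_nonneg u])

theorem g1 {u : ℝ} (hu : |u| ≤ 1) : |g u| ≤ M k :=
  (k.hM2 u hu).trans (by have := k.hM; nlinarith [abs_nonneg u])

theorem aux1 {n : ℕ} (hn : q ≤ n) {x : ℝ} (hx : |x| ≤ k.b) :
    |g' (x ^ n) * ((n : ℝ) * x ^ (n - 1))| ≤ k.M * (n * k.s) := by
  have h1 := k.hM1 (x ^ n) (pw1 (hx.trans k.b1.le))
  have h2 := k.pw hn hx
  rw [abs_mul, abs_mul, abs_pow, Nat.abs_cast]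
  have := k.hM
  gcongr

theorem aux2 {n : ℕ} (hn : q ≤ n) {x : ℝ} (hx : |x| ≤ k.b) :
    |g (x ^ n)| ≤ k.M * (k.s * |x|) := by
  have h1 := k.hM2 (x ^ n) (pw1 (hx.trans k.b1.le))
  exact h1.trans (mul_le_mul_of_nonneg_left (k.pw2 hn hx) k.hM.le)

theorem aux3 {n : ℕ} (hn : q ≤ n) {x : ℝ} (hx : |x| ≤ k.b) :
    |x ^ n * g' (x ^ n)| ≤ k.M * (k.s * |x|) := by
  have h1 := k.tg (u := x ^ n) (pw1 (hx.trans k.b1.le))
  exact h1.trans (mul_le_mul_of_nonneg_left (k.pw2 hn hx) k.hM.le)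

theorem xB (x : ℝ) : x * B1 g' q r x = ((q : ℝ) * r) ^ 2 * (x ^ (q * r) * g' (x ^ (q * r))) := by
  have h0 : q * r ≠ 0 := Nat.mul_ne_zero k.q0 k.r0
  have e : x * x ^ (q * r - 1) = x ^ (q * r) := mul_pow_sub_one h0 x
  unfold B1
  push_cast
  linear_combination ((q : ℝ) * r) ^ 2 * g' (x ^ (q * r)) * e

theorem xA (x : ℝ) : x * A1 g' q r x = (q : ℝ) ^ 2 * (x ^ q * g' (x ^ q)) +
    (r : ℝ) ^ 2 * (x ^ r * g' (x ^ r)) := by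
  have e1 : x * x ^ (q - 1) = x ^ q := mul_pow_sub_one k.q0 x
  have e2 : x * x ^ (r - 1) = x ^ r := mul_pow_sub_one k.r0 x
  unfold A1
  linear_combination (q : ℝ) ^ 2 * g' (x ^ q) * e1 + (r : ℝ) ^ 2 * g' (x ^ r) * e2

/-- zone 0 -/
theorem fact0 {x : ℝ} (hx : |x| ≤ k.a) (hg : k.γ ≤ |g' x|) :
    B1 g' q r x - A1 g' q r x + g' x ≠ 0 := by
  intro h0
  have hxb := hx.trans k.ab
  have h1 := k.aux1 le_rfl hxb
  have h2 := k.aux1 k.qr' hxb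
  have h3 := k.aux1 k.qqr hxb
  have hq0 : (0 : ℝ) ≤ q := by linarith [k.q2]
  have hr0 : (0 : ℝ) ≤ r := by linarith [k.qr]
  have h4 : |B1 g' q r x| ≤ k.M * (((q : ℝ) * r) ^ 2 * k.s) := by
    unfold B1
    rw [abs_mul, abs_mul, abs_of_nonneg hq0, abs_of_nonneg hr0]
    calc (q : ℝ) * (r * |g' (x ^ (q * r)) * (((q * r : ℕ) : ℝ) * x ^ (q * r - 1))|) ≤
        q * (r * (k.M * (((q * r : ℕ) : ℝ) * k.s))) := by gcongr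
      _ = _ := by push_cast; ring
  have h5 : |A1 g' q r x| ≤ k.M * ((q : ℝ) ^ 2 * k.s) + k.M * ((r : ℝ) ^ 2 * k.s) := by
    unfold A1
    refine (abs_add_le _ _).trans ?_
    rw [abs_mul (q : ℝ), abs_mul (r : ℝ), abs_of_nonneg hq0, abs_of_nonneg hr0]
    calc (q : ℝ) * |g' (x ^ q) * (q * x ^ (q - 1))| + r * |g' (x ^ r) * (r * x ^ (r - 1))| ≤
        q * (k.M * (q * k.s)) + r * (k.M * (r * k.s)) := by gcongr
      _ = _ := by ring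
  have h6 : g' x = A1 g' q r x - B1 g' q r x := by linarith
  have h7 : |g' x| ≤ |A1 g' q r x| + |B1 g' q r x| := by rw [h6]; exact abs_sub _ _
  obtain ⟨-, -, -, s1, s2, s3⟩ := k.sig
  have hM := k.hM
  have t1 := mul_le_mul_of_nonneg_left s1 hM.le
  have t2 := mul_le_mul_of_nonneg_left s2 hM.le
  have t3 := mul_le_mul_of_nonneg_left s3 hM.le
  have t4 := k.m2
  have t5 : 0 < k.M * (q ^ 4 * k.s) := by
    have := k.s0; have := k.q2; positivity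
  linarith

theorem loc0 {x : ℝ} (hx0 : x ≠ 0) (hx : |x| ≤ k.a) (h0 : B0 g q r x - A0 g q r x + g x = 0) :
    ∃ z, z ≠ 0 ∧ g z = 0 ∧ |x - z| < k.δ / 2 := by
  have hxb := hx.trans k.ab
  have h1 := k.aux2 le_rfl hxb
  have h2 := k.aux2 k.qr' hxb
  have h3 := k.aux2 k.qqr hxb
  have hq0 : (0 : ℝ) ≤ q := by linarith [k.q2]
  have hr0 : (0 : ℝ) ≤ r := by linarith [k.qr]
  apply k.k3 x hx0 (hxb.trans k.b1.le)
  have h4 : |B0 g q r x| ≤ k.M * ((q : ℝ) * r * k.s) * |x| := by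
    unfold B0
    rw [abs_mul, abs_mul, abs_of_nonneg hq0, abs_of_nonneg hr0]
    calc (q : ℝ) * (r * |g (x ^ (q * r))|) ≤ q * (r * (k.M * (k.s * |x|))) := by gcongr
      _ = _ := by ring
  have h5 : |A0 g q r x| ≤ k.M * ((q : ℝ) * k.s) * |x| + k.M * ((r : ℝ) * k.s) * |x| := by
    unfold A0
    refine (abs_add_le _ _).trans ?_
    rw [abs_mul (q : ℝ), abs_mul (r : ℝ), abs_of_nonneg hq0, abs_of_nonneg hr0]
    calc (q : ℝ) * |g (x ^ q)| + r * |g (x ^ r)| ≤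
        q * (k.M * (k.s * |x|)) + r * (k.M * (k.s * |x|)) := by gcongr
      _ = _ := by ring
  have h6 : g x = A0 g q r x - B0 g q r x := by linarith
  have h7 : |g x| ≤ |A0 g q r x| + |B0 g q r x| := by rw [h6]; exact abs_sub _ _
  obtain ⟨s1, s2, s3, -, -, -⟩ := k.sig
  have hM := k.hM
  have t1 := mul_le_mul_of_nonneg_left s1 hM.le
  have t2 := mul_le_mul_of_nonneg_left s2 hM.le
  have t3 := mul_le_mul_of_nonneg_left s3 hM.le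
  have t4 := k.m1
  have t5 : 0 < k.M * (q ^ 4 * k.s) := by
    have := k.s0; have := k.q2; positivity
  have t6 : k.M * ((q : ℝ) * k.s) + k.M * ((r : ℝ) * k.s) + k.M * ((q : ℝ) * r * k.s) ≤ k.ε := by
    linarith
  have t7 := mul_le_mul_of_nonneg_right t6 (abs_nonneg x)
  linarith

end Dat

end Pool.Agent.KS6_64.CZ
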