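import Mathlib

/-!
# Pairs of primes of ratio near `1`
-/

set_option autoImplicit false

namespace Pool.Agent.KS6_64.CZ

open Filter Topology

theorem exists_pair {t : ℝ} (ht : 0 < t) (R : ℕ) :
    ∃ q r : ℕ, q.Prime ∧ r.Prime ∧ R ≤ q ∧ q < r ∧ (r : ℝ) ≤ (1 + t) * q := by
  by_contra hcon
  push Not at hcon
  have hinf : (setOf Nat.Prime).Infinite := Nat.infinite_setOf_prime
  set e : ℕ → ℕ := Nat.nth Nat.Prime with he
  have he1 : ∀ k, (e k).Prime := fun k => Nat.nth_mem_of_infinite hinf k
  have he2 : StrictMono e := Nat.nth_strictMono hinf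
  have hs : Summable (fun k : ℕ => (1 : ℝ) / e k) := by
    refine summable_of_ratio_norm_eventually_le (r := (1 + t)⁻¹) (inv_lt_one_of_one_lt₀ (by linarith)) ?_
    filter_upwards [eventually_ge_atTop R] with k hk
    have h1 := hcon (e k) (e (k + 1)) (he1 k) (he1 (k + 1)) (hk.trans (he2.id_le k))
      (he2 (Nat.lt_succ_self k))
    have h2 : (0 : ℝ) < e k := by exact_mod_cast (he1 k).pos
    have h3 : (0 : ℝ) < e (k + 1) := by exact_mod_cast (he1 (k + 1)).pos
    rw [Real.norm_of_nonneg (by positivity), Real.norm_of_nonneg (by positivity), ← one_div,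
      div_mul_div_comm, one_mul]
    exact one_div_le_one_div_of_le (by positivity) h1.le
  refine Nat.Primes.not_summable_one_div ?_
  have h4 : Function.Injective (fun k : ℕ => (⟨e k, he1 k⟩ : Nat.Primes)) := fun a b hab =>
    he2.injective (by simpa using congrArg Subtype.val hab)
  refine (h4.summable_iff (f := fun p : Nat.Primes => (1 : ℝ) / (p : ℕ)) ?_).1 hs
  intro p hp
  exfalso
  apply hp
  have h5 : (p : ℕ) ∈ Set.range e := by
    rw [he, Nat.range_nth_of_infinite hinf]; exact p.2
  obtain ⟨k, hk⟩ := h5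
  exact ⟨k, Subtype.ext hk⟩

end Pool.Agent.KS6_64.CZ
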