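import Pool.Agent.KS6_64.CZ.Facts2

/-!
# `q r g(x^{qr}) - q g(x^q) - r g(x^r) + g(x)` has at most `3 N + 2` zeros besides `0`
-/

set_option autoImplicit false

namespace Pool.Agent.KS6_64.CZ

open Filter Topology Pool.Agent.KS6_64.CY

variable {g g' : ℝ → ℝ} {N : ℕ} {q r : ℕ}

theorem exists_dat (h : UP g g' N) : ∃ t : ℝ, 0 < t ∧ t ≤ 1 ∧ ∀ᶠ q : ℕ in atTop, ∀ r : ℕ,
    q ≤ r → (r : ℝ) ≤ (1 + t) * q → Odd q → Odd r → Nonempty (Dat g g' q r) := by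
  obtain ⟨c, C, hc, hb⟩ := h.big
  obtain ⟨M, hM, hM1, hM2⟩ := h.bound
  obtain ⟨δ0, d0, d01, n1, n2⟩ := h.near0
  obtain ⟨δ1, d1, d11, k1⟩ := h.near1 hc hb
  obtain ⟨γ, δ, hγ, hδ, k2⟩ := nearZ' h
  obtain ⟨ε, hε, k3⟩ := h.near (half_pos hδ)
  have hτ : 0 < |g' 0| := abs_pos.2 h.tau
  have hκ : ∃ κ : ℝ, 0 < κ ∧ κ ≤ δ / 2 ∧ κ ≤ δ1 / 2 ∧ M * κ ≤ ε * δ0 / 2 := by
    refine ⟨min (min (δ / 2) (δ1 / 2)) (ε * δ0 / (2 * M)), by positivity,
      (min_le_left _ _).trans (min_le_left _ _), (min_le_left _ _).trans (min_le_right _ _), ?_⟩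
    calc M * min (min (δ / 2) (δ1 / 2)) (ε * δ0 / (2 * M)) ≤ M * (ε * δ0 / (2 * M)) :=
          mul_le_mul_of_nonneg_left (min_le_right _ _) hM.le
      _ = ε * δ0 / 2 := by field_simp
  obtain ⟨κ, κ0, κ1, κ2, κ3⟩ := hκ
  obtain ⟨t, t0, t1, ht⟩ := exists_t d0 d01 κ0
  refine ⟨t, t0, t1, ?_⟩
  have ha0 : (0 : ℝ) < 1 - δ1 / 2 := by linarith
  have ha1 : 1 - δ1 / 2 < 1 := by linarith
  obtain ⟨b, hab, hdb, hb1⟩ : ∃ b : ℝ, 1 - δ1 / 2 ≤ b ∧ δ0 ≤ b ∧ b < 1 :=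
    ⟨max (1 - δ1 / 2) δ0, le_max_left _ _, le_max_right _ _, max_lt ha1 d01⟩
  have hb0 : 0 < b := by linarith
  obtain ⟨η, η0, η1, η2, η3, η4⟩ : ∃ η : ℝ, 0 < η ∧ η ≤ ε ∧ η ≤ γ ∧ η ≤ |g' 0| ∧ η ≤ 1 :=
    ⟨min (min ε γ) (min |g' 0| 1), by positivity, (min_le_left _ _).trans (min_le_left _ _),
      (min_le_left _ _).trans (min_le_right _ _), (min_le_right _ _).trans (min_le_left _ _),
      (min_le_right _ _).trans (min_le_right _ _)⟩
  have E1 : ∀ᶠ q : ℕ in atTop, 3 * C < (q : ℝ) * c :=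
    (tendsto_natCast_atTop_atTop.atTop_mul_const hc).eventually (eventually_gt_atTop _)
  have E2 : ∀ᶠ q : ℕ in atTop, 24 * M < (q : ℝ) * c :=
    (tendsto_natCast_atTop_atTop.atTop_mul_const hc).eventually (eventually_gt_atTop _)
  have E3 : ∀ᶠ q : ℕ in atTop, 4 * (M + 1) < (q : ℝ) * (ε * δ0) :=
    (tendsto_natCast_atTop_atTop.atTop_mul_const (by positivity)).eventually (eventually_gt_atTop _)
  have E4 : ∀ᶠ q : ℕ in atTop, 6 * (M + 1) < (q : ℝ) * (δ0 * γ) :=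
    (tendsto_natCast_atTop_atTop.atTop_mul_const (by positivity)).eventually (eventually_gt_atTop _)
  have E5 : ∀ᶠ q : ℕ in atTop, 16 * M / b * ((q : ℝ) ^ 4 * b ^ q) < η := by
    have ht := (tendsto_pow_const_mul_const_pow_of_lt_one 4 hb0.le hb1).const_mul (16 * M / b)
    rw [mul_zero] at ht
    exact ht.eventually (gt_mem_nhds η0)
  filter_upwards [E1, E2, E3, E4, E5, eventually_ge_atTop 2] with q e1 e2 e3 e4 e5 e6 r hqr hr oq or'
  have hq0 : q ≠ 0 := by omega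
  have hq2 : (2 : ℝ) ≤ q := by exact_mod_cast e6
  have hes : 16 * M / b * ((q : ℝ) ^ 4 * b ^ q) = 16 * M * ((q : ℝ) ^ 4 * b ^ (q - 1)) := by
    rw [← mul_pow_sub_one hq0 b]; field_simp
  rw [hes] at e5
  exact ⟨{ c := c, C := C, M := M, δ0 := δ0, δ1 := δ1, γ := γ, δ := δ, ε := ε, κ := κ,
           a := 1 - δ1 / 2, b := b, s := b ^ (q - 1)
           hc := hc, hb := hb, hM := hM, hM1 := hM1, hM2 := hM2
           lp := fun x y hx hy => lip h hM1 hx hy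
           d0 := d0, d01 := d01, n1 := n1, n2 := n2, tau := h.tau, d1 := d1, k1 := k1
           ka := by linarith
           ka' := by linarith
           hγ := hγ, hδ := hδ, k2 := k2, hε := hε, k3 := k3, κδ := κ1, κε := κ3
           cl := fun x hx hxq => close_pow d0 ht (by omega) hqr hr oq or' hx hxq
           a1 := ha1, ab := hab, δb := hdb, b1 := hb1, b0 := hb0, hs := rfl
           oq := oq, or := or', q2 := hq2, qr := by exact_mod_cast hqr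
           r2 := by nlinarith
           e1 := e1, e2 := e2, e3 := e3, e4 := e4
           m1 := e5.trans_le η1, m2 := e5.trans_le η2, m3 := e5.trans_le η3
           m4 := e5.trans_le η4 }⟩

theorem up_two (h : UP g g' N) (k : Dat g g' q r) :
    UP (fun x => B0 g q r x - A0 g q r x + g x) (fun x => B1 g' q r x - A1 g' q r x + g' x)
      (3 * N + 2) := by
  classical
  have hq := k.q2
  have hqr := k.qr
  have hc := k.hc
  have hqp : (0 : ℝ) < q := by linarith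
  have hrp : (0 : ℝ) < r := by linarith
  have q0 := k.q0
  have r0 := k.r0
  have qr0 : q * r ≠ 0 := Nat.mul_ne_zero q0 r0
  have oqr : Odd (q * r) := k.oq.mul k.or
  have dB : ∀ x, HasDerivAt (B0 g q r) (B1 g' q r x) x := fun x =>
    (((h.der (x ^ (q * r))).comp x (hasDerivAt_pow (q * r) x)).const_mul (r : ℝ)).const_mul (q : ℝ)
  have dA : ∀ x, HasDerivAt (A0 g q r) (A1 g' q r x) x := fun x =>
    (((h.der (x ^ q)).comp x (hasDerivAt_pow q x)).const_mul (q : ℝ)).add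
      (((h.der (x ^ r)).comp x (hasDerivAt_pow r x)).const_mul (r : ℝ))
  have hder : ∀ x, HasDerivAt (fun x => B0 g q r x - A0 g q r x + g x)
      (B1 g' q r x - A1 g' q r x + g' x) x := fun x => ((dB x).sub (dA x)).add (h.der x)
  have hbig : ∀ x, 1 ≤ |x| → k.c ≤ B0 g q r x - A0 g q r x + g x ∧
      B0 g q r x - A0 g q r x + g x ≤ q * (r * k.C) + k.C := by
    intro x hx
    have h0 := k.hb x hx
    have h1 := k.hb (x ^ q) (by rw [abs_pow]; exact one_le_pow₀ hx)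
    have h2 := k.hb (x ^ r) (by rw [abs_pow]; exact one_le_pow₀ hx)
    have h3 := k.hb (x ^ (q * r)) (by rw [abs_pow]; exact one_le_pow₀ hx)
    have i1 : (q : ℝ) * (r * k.c) ≤ q * (r * g (x ^ (q * r))) := by gcongr; exact h3.1
    have i2 : (q : ℝ) * (r * g (x ^ (q * r))) ≤ q * (r * k.C) := by gcongr; exact h3.2
    have i3 : (q : ℝ) * g (x ^ q) ≤ q * k.C := by gcongr; exact h1.2
    have i4 : (r : ℝ) * g (x ^ r) ≤ r * k.C := by gcongr; exact h2.2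
    have i5 : 0 < (q : ℝ) * g (x ^ q) := mul_pos hqp (by linarith [h1.1])
    have i6 : 0 < (r : ℝ) * g (x ^ r) := mul_pos hrp (by linarith [h2.1])
    have eA : A0 g q r x = q * g (x ^ q) + r * g (x ^ r) := rfl
    have eB : B0 g q r x = q * (r * g (x ^ (q * r))) := rfl
    have hCp : 0 < k.C := by linarith [h0.1, h0.2]
    have j1 : (q : ℝ) * k.C ≤ r * k.C := mul_le_mul_of_nonneg_right hqr hCp.le
    have j2 : (r : ℝ) * (3 * k.C) < r * (q * k.c) := mul_lt_mul_of_pos_left k.e1 hrp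
    have j3 : (q : ℝ) * (r * k.c) = r * (q * k.c) := by ring
    rw [eA, eB]
    have j4 : 0 < (r : ℝ) * k.C := mul_pos hrp hCp
    constructor <;> linarith [h0.1, h0.2]
  have hlt1 : ∀ x, B0 g q r x - A0 g q r x + g x = 0 → |x| < 1 := by
    intro x hx
    by_contra hcon
    have := (hbig x (not_lt.1 hcon)).1
    rw [hx] at this
    linarith
  -- the zones
  let T : ℕ × ℝ → ℝ → Prop := fun p x =>
    (p.1 = 0 ∧ (p.2 ≠ 0 ∧ g p.2 = 0) ∧ |x| ≤ k.a ∧ |x - p.2| < k.δ / 2) ∨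
    (p = (1, 0) ∧ k.a < |x| ∧ |x ^ q| ≤ k.δ0) ∨
    (p.1 = 2 ∧ (p.2 ≠ 0 ∧ g p.2 = 0) ∧ k.δ0 < |x ^ q| ∧ |x ^ q| ≤ k.a ∧
      |x ^ q - p.2| < k.δ / 2) ∨
    (p = (3, 0) ∧ k.a < |x ^ q| ∧ k.δ0 < |x ^ q| ∧ |x ^ (q * r)| ≤ k.δ0) ∨
    (p.1 = 4 ∧ (p.2 ≠ 0 ∧ g p.2 = 0) ∧ k.δ0 < |x ^ (q * r)| ∧
      |x ^ (q * r) - p.2| < k.δ / 2)
  have hloc : ∀ x, x ≠ 0 → B0 g q r x - A0 g q r x + g x = 0 → ∃ p, T p x := by
    intro x hx hz
    have hx1 := (hlt1 x hz).le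
    rcases le_or_gt |x| k.a with h1 | h1
    · obtain ⟨z, hz0, hz1, hz2⟩ := k.loc0 hx h1 hz
      exact ⟨(0, z), Or.inl ⟨rfl, ⟨hz0, hz1⟩, h1, hz2⟩⟩
    · rcases le_or_gt |x ^ q| k.δ0 with h2 | h2
      · exact ⟨(1, 0), Or.inr (Or.inl ⟨rfl, h1, h2⟩)⟩
      · rcases le_or_gt |x ^ q| k.a with h3 | h3
        · obtain ⟨z, hz0, hz1, hz2⟩ := k.loc2 hx hx1 h2 h3 hz
          exact ⟨(2, z), Or.inr (Or.inr (Or.inl ⟨rfl, ⟨hz0, hz1⟩, h2, h3, hz2⟩))⟩
        · rcases le_or_gt |x ^ (q * r)| k.δ0 with h4 | h4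
          · exact ⟨(3, 0), Or.inr (Or.inr (Or.inr (Or.inl ⟨rfl, h3, h2, h4⟩)))⟩
          · obtain ⟨z, hz0, hz1, hz2⟩ := k.loc4 hx hx1 h4 hz
            exact ⟨(4, z), Or.inr (Or.inr (Or.inr (Or.inr ⟨rfl, ⟨hz0, hz1⟩, h4, hz2⟩)))⟩
  -- uniqueness in a zone
  have huniq : ∀ p x x', T p x → T p x' → B0 g q r x - A0 g q r x + g x = 0 →
      B0 g q r x' - A0 g q r x' + g x' = 0 → ¬ x < x' := by
    intro p x x' hp hp' hz hz' hlt
    have hx1 := hlt1 x hz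
    have hx1' := hlt1 x' hz'
    have hab : ∀ ξ, x ≤ ξ → ξ ≤ x' → |ξ| ≤ 1 := fun ξ a b =>
      abs_le.2 ⟨by linarith [(abs_lt.1 hx1).1], by linarith [(abs_lt.1 hx1').2]⟩
    have hrolle : ∃ ξ, x < ξ ∧ ξ < x' ∧ B1 g' q r ξ - A1 g' q r ξ + g' ξ = 0 := by
      obtain ⟨ξ, hξ, hd⟩ := exists_hasDerivAt_eq_zero hlt
        (fun w _ => (hder w).continuousAt.continuousWithinAt) (hz.trans hz'.symm)
        (fun w _ => hder w)
      exact ⟨ξ, hξ.1, hξ.2, hd⟩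
    have hδ := k.hδ
    rcases hp with ⟨i0, ⟨z0, z1⟩, a1, a2⟩ | ⟨i0, a1, a2⟩ | ⟨i0, ⟨z0, z1⟩, a1, a2, a3⟩ |
      ⟨i0, a1, a2, a3⟩ | ⟨i0, ⟨z0, z1⟩, a1, a2⟩
    · rcases hp' with ⟨-, -, b1, b2⟩ | ⟨j0, -⟩ | ⟨j0, -⟩ | ⟨j0, -⟩ | ⟨j0, -⟩
      · obtain ⟨ξ, h1, h2, hd⟩ := hrolle
        refine k.fact0 (x := ξ) ?_ ((k.k2 p.2 z0 z1).2 ξ ?_).1 hd
        · rw [abs_le] at *; exact ⟨by linarith, by linarith⟩
        · rw [abs_lt] at *; exact ⟨by linarith, by linarith⟩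
      · rw [j0] at i0; norm_num at i0
      · omega
      · rw [j0] at i0; norm_num at i0
      · omega
    · rcases hp' with ⟨j0, -⟩ | ⟨-, b1, b2⟩ | ⟨j0, -⟩ | ⟨j0, -⟩ | ⟨j0, -⟩
      · rw [i0] at j0; norm_num at j0
      · have s1 := k.sign1 hx1.le a1 a2 hz
        have s2 := k.sign1 hx1'.le b1 b2 hz'
        have hbet : ∀ ξ, x ≤ ξ → ξ ≤ x' → 0 < g' 0 * ξ ^ q ∧ |ξ ^ q| ≤ k.δ0 ∧ k.a < |ξ| := by
          intro ξ h1 h2
          have := between (k := 1) k.oq odd_one s1 s2 h1 h2 a2 b2 (by simpa using a1)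
            (by simpa using b1)
          simpa using this
        obtain ⟨ξ, h1, h2, h3⟩ := rolle_quot (F1 := fun x => A0 g q r x - B0 g q r x) (F2 := g)
          (F1' := fun x => A1 g' q r x - B1 g' q r x) (F2' := g') hlt
          (fun ξ => (dA ξ).sub (dB ξ)) h.der
          (fun ξ h1 h2 => by
            have := k.k1 ξ (k.ka'.trans (hbet ξ h1 h2).2.2.le) (hab ξ h1 h2)
            linarith) (by linarith) (by linarith)
        obtain ⟨w1, w2, w3⟩ := hbet ξ h1.le h2.le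
        have w4 := k.fact1 (hab ξ h1.le h2.le) w3 w2 w1
        have w5 : ξ * (A1 g' q r ξ - B1 g' q r ξ) * g ξ =
            (A0 g q r ξ - B0 g q r ξ) * (ξ * g' ξ) := by
          linear_combination ξ * h3
        linarith
      · rw [i0] at j0; norm_num at j0
      · rw [i0] at j0; norm_num at j0
      · rw [i0] at j0; norm_num at j0
    · rcases hp' with ⟨j0, -⟩ | ⟨j0, -⟩ | ⟨-, -, b1, b2, b3⟩ | ⟨j0, -⟩ | ⟨j0, -⟩
      · omega
      · rw [j0] at i0; norm_num at i0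
      · obtain ⟨ξ, h1, h2, hd⟩ := hrolle
        have hδz := (k.k2 p.2 z0 z1).1
        obtain ⟨w1, w2⟩ := between' k.oq (show k.δ / 2 < |p.2| by linarith) z0 a3 b3 a1 b1 h1 h2
        have m1 : x ^ q < ξ ^ q := k.oq.strictMono_pow h1
        have m2 : ξ ^ q < x' ^ q := k.oq.strictMono_pow h2
        refine k.fact2 (hab ξ h1.le h2.le) w2 ?_ z0 z1 w1 hd
        rw [abs_le] at *; exact ⟨by linarith, by linarith⟩
      · rw [j0] at i0; norm_num at i0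
      · omega
    · rcases hp' with ⟨j0, -⟩ | ⟨j0, -⟩ | ⟨j0, -⟩ | ⟨-, b1, b2, b3⟩ | ⟨j0, -⟩
      · rw [i0] at j0; norm_num at j0
      · rw [i0] at j0; norm_num at j0
      · rw [i0] at j0; norm_num at j0
      · have s1 := k.sign3 hx1.le a1 a2 a3 hz
        have s2 := k.sign3 hx1'.le b1 b2 b3 hz'
        have hbet : ∀ ξ, x ≤ ξ → ξ ≤ x' → 0 < g' 0 * ξ ^ (q * r) ∧ |ξ ^ (q * r)| ≤ k.δ0 ∧
            k.a < |ξ ^ q| ∧ k.δ0 < |ξ ^ q| := by
          intro ξ h1 h2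
          obtain ⟨u1, u2, u3⟩ := between oqr k.oq s1 s2 h1 h2 a3 b3 a1 b1
          obtain ⟨-, -, u4⟩ := between oqr k.oq s1 s2 h1 h2 a3 b3 a2 b2
          exact ⟨u1, u2, u3, u4⟩
        have hTpos : ∀ ξ, x ≤ ξ → ξ ≤ x' → 0 < A0 g q r ξ - g ξ := by
          intro ξ h1 h2
          obtain ⟨-, -, w3, w4⟩ := hbet ξ h1 h2
          have := k.factT (hab ξ h1 h2) w3 w4
          have h5 : 0 < (q : ℝ) * k.c / 2 := by positivity
          linarith
        obtain ⟨ξ, h1, h2, h3⟩ := rolle_quot (F1 := B0 g q r) (F2 := fun x => A0 g q r x - g x)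
          (F1' := B1 g' q r) (F2' := fun x => A1 g' q r x - g' x) hlt
          dB (fun ξ => (dA ξ).sub (h.der ξ)) hTpos (by linarith) (by linarith)
        obtain ⟨w1, w2, w3, w4⟩ := hbet ξ h1.le h2.le
        have w5 := k.fact3 (hab ξ h1.le h2.le) w3 w4 w2 w1
        have w6 : ξ * B1 g' q r ξ * (A0 g q r ξ - g ξ) =
            B0 g q r ξ * (ξ * (A1 g' q r ξ - g' ξ)) := by
          linear_combination ξ * h3
        linarith
      · rw [i0] at j0; norm_num at j0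
    · rcases hp' with ⟨j0, -⟩ | ⟨j0, -⟩ | ⟨j0, -⟩ | ⟨j0, -⟩ | ⟨-, -, b1, b2⟩
      · omega
      · rw [j0] at i0; norm_num at i0
      · omega
      · rw [j0] at i0; norm_num at i0
      · obtain ⟨ξ, h1, h2, hd⟩ := hrolle
        have hδz := (k.k2 p.2 z0 z1).1
        obtain ⟨w1, w2⟩ := between' oqr (show k.δ / 2 < |p.2| by linarith) z0 a2 b2 a1 b1 h1 h2
        exact k.fact4 (hab ξ h1.le h2.le) w2 ((k.k2 p.2 z0 z1).2 _ (by linarith)).1 hd
  -- the count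
  choose! f hf using hloc
  set S : Set ℝ := {x | x ≠ 0 ∧ B0 g q r x - A0 g q r x + g x = 0} with hS
  set I : Finset (ℕ × ℝ) := (({0, 2, 4} : Finset ℕ) ×ˢ h.fin.toFinset) ∪ {(1, 0), (3, 0)} with hI
  have hmaps : Set.MapsTo f S I := by
    intro x hx
    rw [hI, Finset.coe_union]
    rcases hf x hx.1 hx.2 with ⟨i0, hz, -⟩ | ⟨i0, -⟩ | ⟨i0, hz, -⟩ | ⟨i0, -⟩ | ⟨i0, hz, -⟩
    · left
      rw [Finset.mem_coe, Finset.mem_product]
      exact ⟨by rw [i0]; simp, by simpa using hz⟩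
    · right
      rw [i0]; simp
    · left
      rw [Finset.mem_coe, Finset.mem_product]
      exact ⟨by rw [i0]; simp, by simpa using hz⟩
    · right
      rw [i0]; simp
    · left
      rw [Finset.mem_coe, Finset.mem_product]
      exact ⟨by rw [i0]; simp, by simpa using hz⟩
  have hinj : Set.InjOn f S := by
    intro x hx x' hx' he
    have t1 := hf x hx.1 hx.2
    have t2 := hf x' hx'.1 hx'.2
    rw [← he] at t2
    rcases lt_trichotomy x x' with hl | hl | hl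
    · exact absurd hl (huniq _ x x' t1 t2 hx.2 hx'.2)
    · exact hl
    · exact absurd hl (huniq _ x' x t2 t1 hx'.2 hx.2)
  have hIc : I.card ≤ 3 * N + 2 := by
    refine (Finset.card_union_le _ _).trans ?_
    rw [Finset.card_product]
    have h1 : ({0, 2, 4} : Finset ℕ).card = 3 := by decide
    have h2 : h.fin.toFinset.card ≤ N := by
      rw [← Set.ncard_eq_toFinset_card _ h.fin]; exact h.card
    have h3 : ({(1, 0), (3, 0)} : Finset (ℕ × ℝ)).card ≤ 2 := Finset.card_le_two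
    rw [h1]; omega
  have hSf : S.Finite := Set.Finite.of_injOn hmaps hinj I.finite_toSet
  refine ⟨hder, ?_, ?_, ?_, ⟨k.c, q * (r * k.C) + k.C, hc, hbig⟩, hSf, ?_, ?_⟩
  · have := h.cont
    unfold B1 A1
    fun_prop
  · show B0 g q r 0 - A0 g q r 0 + g 0 = 0
    unfold B0 A0
    rw [zero_pow q0, zero_pow r0, zero_pow qr0, h.zero]; ring
  · show B1 g' q r 0 - A1 g' q r 0 + g' 0 ≠ 0
    have hq1 : 2 ≤ q := by exact_mod_cast hq
    have hr1 : 2 ≤ r := hq1.trans k.qr'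
    have hqr1 : 2 ≤ q * r := hq1.trans k.qqr
    unfold B1 A1
    rw [zero_pow (show q - 1 ≠ 0 by omega), zero_pow (show r - 1 ≠ 0 by omega),
      zero_pow (show q * r - 1 ≠ 0 by omega)]
    simpa using h.tau
  · refine le_trans ?_ hIc
    rw [← Set.ncard_coe_finset I]
    exact Set.ncard_le_ncard_of_injOn f hmaps hinj I.finite_toSet
  · intro x hx hz
    have hx1 := (hlt1 x hz).le
    have hδ := k.hδ
    rcases hf x hx hz with ⟨-, ⟨z0, z1⟩, a1, a2⟩ | ⟨-, a1, a2⟩ | ⟨-, ⟨z0, z1⟩, a1, a2, a3⟩ |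
      ⟨-, a1, a2, a3⟩ | ⟨-, ⟨z0, z1⟩, a1, a2⟩
    · exact k.fact0 a1 ((k.k2 _ z0 z1).2 x (by linarith)).1
    · intro h0
      have s1 := k.sign1 hx1 a1 a2 hz
      have w := k.fact1 hx1 a1 a2 s1
      have e1 : A1 g' q r x - B1 g' q r x = g' x := by linarith
      have e2 : A0 g q r x - B0 g q r x = g x := by linarith
      rw [e1, e2] at w
      linarith
    · exact k.fact2 hx1 a1 a2 z0 z1 a3
    · intro h0
      have s1 := k.sign3 hx1 a1 a2 a3 hz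
      have w := k.fact3 hx1 a1 a2 a3 s1
      have e1 : B1 g' q r x = A1 g' q r x - g' x := by linarith
      have e2 : B0 g q r x = A0 g q r x - g x := by linarith
      rw [e1, e2] at w
      linarith
    · exact k.fact4 hx1 a1 ((k.k2 _ z0 z1).2 _ (by linarith)).1

end Pool.Agent.KS6_64.CZ
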