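import Pool.Agent.KS6_64.CY.Step

/-!
# Two large odd exponents whose ratio is near `1`: at most `3 N + 2` simple zeros
-/

set_option autoImplicit false

namespace Pool.Agent.KS6_64.CZ

open Filter Topology Pool.Agent.KS6_64.CY

variable {g g' : ℝ → ℝ} {N : ℕ}

theorem nearZ' (h : UP g g' N) : ∃ γ δ : ℝ, 0 < γ ∧ 0 < δ ∧
    ∀ z, z ≠ 0 → g z = 0 → δ < |z| ∧ ∀ x, |x - z| < δ → γ ≤ |g' x| ∧ 0 < g' z * g' x := by
  obtain ⟨γ, δ, hγ, hδ, h1⟩ := h.nearZ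
  refine ⟨γ, δ, hγ, hδ, fun z hz0 hz => ⟨(h1 z hz0 hz).1, fun x hx => ⟨(h1 z hz0 hz).2 x hx, ?_⟩⟩⟩
  by_contra hcon
  push Not at hcon
  have h0 : (0 : ℝ) ∈ Set.uIcc (g' z) (g' x) := by
    rcases mul_nonpos_iff.1 hcon with ⟨a, b⟩ | ⟨a, b⟩
    · exact Set.mem_uIcc.2 (Or.inr ⟨b, a⟩)
    · exact Set.mem_uIcc.2 (Or.inl ⟨a, b⟩)
  obtain ⟨w, hw, hw0⟩ := intermediate_value_uIcc h.cont.continuousOn h0
  have h2 : |w - z| < δ := (Set.abs_sub_left_of_mem_uIcc hw).trans_lt hx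
  have h3 := (h1 z hz0 hz).2 w h2
  rw [hw0, abs_zero] at h3
  linarith

theorem lip (h : UP g g' N) {M : ℝ} (hM : ∀ x, |x| ≤ 1 → |g' x| ≤ M) {x y : ℝ} (hx : |x| ≤ 1)
    (hy : |y| ≤ 1) : |g y - g x| ≤ M * |y - x| :=
  Convex.norm_image_sub_le_of_norm_hasDerivWithin_le (s := Set.Icc (-1 : ℝ) 1)
    (f := g) (f' := g') (C := M) (x := x) (y := y)
    (fun x _ => (h.der x).hasDerivWithinAt) (fun x hx => hM x (abs_le.2 hx)) (convex_Icc _ _)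
    (Set.mem_Icc.2 (abs_le.1 hx)) (Set.mem_Icc.2 (abs_le.1 hy))

theorem exists_t {δ0 κ : ℝ} (h0 : 0 < δ0) (h1 : δ0 < 1) (hκ : 0 < κ) :
    ∃ t : ℝ, 0 < t ∧ t ≤ 1 ∧ ∀ s, 0 ≤ s → s ≤ t → 1 - κ ≤ δ0 ^ s := by
  have hc : ContinuousAt (fun s : ℝ => δ0 ^ s) 0 := (Real.continuousAt_const_rpow h0.ne')
  have h2 : (1 : ℝ) - κ < δ0 ^ (0 : ℝ) := by rw [Real.rpow_zero]; linarith
  obtain ⟨a, ha, h3⟩ := Metric.mem_nhds_iff.1 (hc.eventually (lt_mem_nhds h2))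
  refine ⟨min (a / 2) 1, by positivity, min_le_right _ _, fun s hs hst => ?_⟩
  have : s ∈ Metric.ball (0 : ℝ) a := by
    rw [Metric.mem_ball, Real.dist_eq, sub_zero, abs_of_nonneg hs]
    have := hst.trans (min_le_left _ _)
    linarith
  exact (h3 this).le

/-- the powers `x ^ q` and `x ^ r` are close -/
theorem close_pow {δ0 κ t : ℝ} (h0 : 0 < δ0) (ht : ∀ s, 0 ≤ s → s ≤ t → 1 - κ ≤ δ0 ^ s)
    {q r : ℕ} (hq : 0 < q) (hqr : q ≤ r) (hr : (r : ℝ) ≤ (1 + t) * q) (oq : Odd q) (or : Odd r)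
    {x : ℝ} (hx : |x| ≤ 1) (hxq : δ0 ≤ |x ^ q|) : |x ^ r - x ^ q| ≤ κ := by
  obtain ⟨k, rfl⟩ := Nat.exists_eq_add_of_le hqr
  have hk : Even k := by
    rcases Nat.even_or_odd k with h | h
    · exact h
    · exact absurd or (Nat.not_odd_iff_even.2 (oq.add_odd h))
  have hqp : (0 : ℝ) < q := by exact_mod_cast hq
  have e1 : x ^ (q + k) - x ^ q = -(x ^ q * (1 - |x| ^ k)) := by
    rw [pow_add, hk.pow_abs]; ring
  have hxpos : 0 < |x| := by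
    rcases (abs_nonneg x).lt_or_eq with h | h
    · exact h
    · rw [abs_pow, ← h, zero_pow hq.ne'] at hxq; linarith
  have hk1 : |x| ^ k ≤ 1 := pow_le_one₀ (abs_nonneg _) hx
  have hkey : 1 - κ ≤ |x| ^ k := by
    set s : ℝ := (k : ℝ) / q with hs
    have hs0 : 0 ≤ s := by positivity
    have hst : s ≤ t := by
      rw [hs, div_le_iff₀ hqp]
      push_cast at hr
      nlinarith
    have h1 := ht s hs0 hst
    have h2 : δ0 ^ s ≤ |x ^ q| ^ s := Real.rpow_le_rpow h0.le hxq hs0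
    have h3 : |x ^ q| ^ s = |x| ^ k := by
      rw [abs_pow, ← Real.rpow_natCast |x| q, ← Real.rpow_mul (abs_nonneg _), hs,
        mul_div_cancel₀ _ hqp.ne', Real.rpow_natCast]
    linarith
  rw [e1, abs_neg, abs_mul, abs_of_nonneg (by linarith : (0 : ℝ) ≤ 1 - |x| ^ k)]
  have h4 : |x ^ q| ≤ 1 := by rw [abs_pow]; exact pow_le_one₀ (abs_nonneg _) hx
  have h5 : 0 ≤ 1 - |x| ^ k := by linarith
  nlinarith [abs_nonneg (x ^ q)]

end Pool.Agent.KS6_64.CZ
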