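import Pool.Agent.KS6_64.CZ.Step2
import Pool.Agent.KS6_64.CZ.Pairs
import Pool.Agent.KS6_64.CZ.BaseP

/-!
# Two large primes of ratio near `1`
-/

set_option autoImplicit false

namespace Pool.Agent.KS6_64.CZ

open Filter Topology Polynomial Pool.Agent.KS6_64.CY

theorem two_cyc {m N : ℕ} (hm : 2 < m) (h : UP (gg m) (gg' m) N) : ∃ t : ℝ, 0 < t ∧
    ∀ᶠ q : ℕ in atTop, ∀ r : ℕ, q.Prime → r.Prime → q < r → (r : ℝ) ≤ (1 + t) * q →
      UP (gg (m * q * r)) (gg' (m * q * r)) (3 * N + 2) := by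
  obtain ⟨t, t0, -, ht⟩ := exists_dat h
  refine ⟨t, t0, ?_⟩
  filter_upwards [ht, eventually_gt_atTop m, eventually_gt_atTop 2] with q hq hqm hq2 r pq pr hqr hr
  obtain ⟨k⟩ := hq r hqr.le hr (pq.odd_of_ne_two (by omega)) (pr.odd_of_ne_two (by omega))
  have h1 := up_two h k
  have d1 : ¬ q ∣ m := fun hd => by
    have := Nat.le_of_dvd (by omega) hd; omega
  have d2 : ¬ r ∣ m * q := fun hd => by
    rcases (Nat.Prime.dvd_mul pr).1 hd with hd | hd
    · have := Nat.le_of_dvd (by omega) hd; omega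
    · have := Nat.le_of_dvd (by omega) hd; omega
  have hmq : 2 < m * q := lt_of_lt_of_le hm (Nat.le_mul_of_pos_right m pq.pos)
  have hmqr : 2 < m * q * r := lt_of_lt_of_le hmq (Nat.le_mul_of_pos_right _ pr.pos)
  have e : (fun x => B0 (gg m) q r x - A0 (gg m) q r x + gg m x) = gg (m * q * r) := by
    funext x
    rw [gg_mul hmq pr d2, gg_mul hm pq d1, gg_mul hm pq d1, ← pow_mul, mul_comm r q]
    unfold A0 B0
    ring
  rw [e] at h1
  have e' : (fun x => B1 (gg' m) q r x - A1 (gg' m) q r x + gg' m x) = gg' (m * q * r) := by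
    funext x; exact (h1.der x).unique (gg_der hmqr x)
  rwa [e'] at h1

end Pool.Agent.KS6_64.CZ
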